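import Pool.Agent.G02.Stmts

/-!
# Squad G02, row NRM: normalisation at a prime
-/

set_option autoImplicit false

namespace Pool.Agent.G02.H45

open Polynomial Pool.Agent.NJ

noncomputable section

theorem val_sqf {p : ℕ} [hp : Fact p.Prime] {d : ℤ} (hd : Squarefree d) (h : (p : ℤ) ∣ d) :
    padicValInt p d = 1 := by
  obtain ⟨c, rfl⟩ := h
  have hp0 : (p : ℤ) ≠ 0 := by exact_mod_cast hp.out.ne_zero
  have hc : ¬ (p : ℤ) ∣ c := by
    rintro ⟨c', rfl⟩
    have h1 := hd (p : ℤ) ⟨c', by ring⟩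
    have h2 : IsUnit ((p : ℕ) : ℤ) := h1
    rw [Int.isUnit_iff] at h2
    have := hp.out.two_le
    omega
  have hc0 : c ≠ 0 := by
    rintro rfl
    exact hc (dvd_zero _)
  rw [padicValInt.mul hp0 hc0, padicValInt.eq_zero_of_not_dvd hc]
  have h3 : padicValInt p (p : ℤ) = 1 := by
    rw [padicValInt.of_nat]
    exact padicValNat_self
  rw [h3]

theorem nrm (ptc : PtcStmt) : NrmStmt := by
  intro a b p S hp hodd hS x y hx hxy
  haveI : Fact p.Prime := ⟨hp⟩
  have hb : b ≠ 0 := by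
    rintro rfl
    rw [padicValInt.zero] at hodd
    exact absurd hodd (by decide)
  have hbQ : (b : ℚ) ≠ 0 := by exact_mod_cast hb
  obtain ⟨d, M, e, N, B, hq, hxe⟩ := ptc a b x y hx hxy
  have he : (e : ℚ) ≠ 0 := by exact_mod_cast hq.e0
  by_cases hpd : (p : ℤ) ∣ d
  · have hx' : (b : ℚ) / x ≠ 0 := div_ne_zero hbQ hx
    have hy' : (y * b / x ^ 2) ^ 2 = (b : ℚ) / x * (((b : ℚ) / x) ^ 2 + a * ((b : ℚ) / x) + b) := by
      have h1 : (y * b / x ^ 2) ^ 2 = y ^ 2 * b ^ 2 / x ^ 4 := by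
        field_simp
      rw [h1, hxy]
      field_simp
      ring
    obtain ⟨d', M', e', N', B', hq', hxe'⟩ := ptc a b _ _ hx' hy'
    have he' : (e' : ℚ) ≠ 0 := by exact_mod_cast hq'.e0
    have hd0 : d ≠ 0 := hq.sqf.ne_zero
    have hd0' : d' ≠ 0 := hq'.sqf.ne_zero
    have hpd' : ¬ (p : ℤ) ∣ d' := by
      intro hpd'
      have h1 : (b : ℚ) = x * ((b : ℚ) / x) := by
        field_simp
      rw [hxe', hxe] at h1
      have h2 : (b : ℚ) * (e * e') ^ 2 = d * d' * (M * M') ^ 2 := by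
        rw [h1]
        field_simp
      have h3 : b * (e * e') ^ 2 = d * d' * (M * M') ^ 2 := by exact_mod_cast h2
      have h4 := congrArg (padicValInt p) h3
      have hee : e * e' ≠ 0 := mul_ne_zero hq.e0 hq'.e0
      have hMM : M * M' ≠ 0 := mul_ne_zero hq.m0 hq'.m0
      rw [padicValInt.mul hb (pow_ne_zero _ hee), padicValInt.mul (mul_ne_zero hd0 hd0')
        (pow_ne_zero _ hMM), padicValInt.mul hd0 hd0', sq, sq, padicValInt.mul hee hee,
        padicValInt.mul hMM hMM, val_sqf hq.sqf hpd, val_sqf hq'.sqf hpd'] at h4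
      obtain ⟨k, hk⟩ := hodd
      omega
    refine ⟨d', hS d' M' e' N' B' hq' hpd', Or.inr ⟨(d' : ℚ) * M' * x / e', ?_⟩⟩
    have h5 : (b : ℚ) = x * ((d' : ℚ) * (M' : ℚ) ^ 2 / (e' : ℚ) ^ 2) := by
      rw [← hxe']
      field_simp
    rw [h5]
    field_simp
  · refine ⟨d, hS d M e N B hq hpd, Or.inl ⟨(d : ℚ) * M / e, ?_⟩⟩
    rw [hxe]
    field_simp

end

end Pool.Agent.G02.H45
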